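import Mathlib

/-! A smooth cubic `y² z + y z² = x³ + τ x z²` has no nonconstant rational parameterization. -/

namespace Pool.Agent.P.MP_87683a_ag

open Polynomial

variable {K : Type*} [Field K]

theorem smooth_pt (τ x y z : K) (hτ : 64 * τ ^ 3 + 27 ≠ 0)
    (h0 : y ^ 2 * z + y * z ^ 2 - x ^ 3 - τ * x * z ^ 2 = 0)
    (h1 : -3 * x ^ 2 - τ * z ^ 2 = 0) (h2 : 2 * y * z + z ^ 2 = 0)
    (h3 : y ^ 2 + 2 * y * z - 2 * τ * x * z = 0) : x = 0 ∧ y = 0 ∧ z = 0 := by
  have hz : z = 0 := by
    by_contra hz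
    have e2 : 2 * y + z = 0 := by
      apply mul_left_cancel₀ hz
      linear_combination h2
    have e3 : 8 * x ^ 3 - z ^ 3 = 0 := by
      linear_combination 4 * h0 - 4 * x * h1 - z * (2 * y + z) * e2
    have e4 : (64 * τ ^ 3 + 27) * z ^ 6 = 0 := by
      linear_combination (-64 * (τ ^ 2 * z ^ 4 - 3 * τ * z ^ 2 * x ^ 2 + 9 * x ^ 4)) * h1
        - 27 * (8 * x ^ 3 + z ^ 3) * e3
    exact hz (pow_eq_zero_iff (by norm_num) |>.1 ((mul_eq_zero.1 e4).resolve_left hτ))
  subst hz
  refine ⟨?_, ?_, rfl⟩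
  · have : x ^ 3 = 0 := by linear_combination -h0
    exact pow_eq_zero_iff (by norm_num) |>.1 this
  · have : y ^ 2 = 0 := by linear_combination h3
    exact pow_eq_zero_iff (by norm_num) |>.1 this

theorem coeff_mul2 {p q : K[X]} {n : ℕ} (hp : p.natDegree ≤ n) (hq : q.natDegree ≤ n) :
    (p * q).coeff (n + n) = p.coeff n * q.coeff n :=
  coeff_mul_add_eq_of_natDegree_le hp hq

theorem coeff_mul3 {p q r : K[X]} {n : ℕ} (hp : p.natDegree ≤ n) (hq : q.natDegree ≤ n)
    (hr : r.natDegree ≤ n) : (p * q * r).coeff (n + n + n) = p.coeff n * q.coeff n * r.coeff n := by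
  rw [coeff_mul_add_eq_of_natDegree_le (natDegree_mul_le.trans (add_le_add hp hq)) hr,
    coeff_mul2 hp hq]

theorem degree_mul_deriv_lt {p q : K[X]} {n : ℕ} (hp : p.natDegree ≤ n) (hq : q.natDegree ≤ n) :
    (p * derivative q).degree < (n + n : ℕ) := by
  by_cases h0 : p * derivative q = 0
  · rw [h0, degree_zero]; exact WithBot.bot_lt_coe _
  have hq0 : derivative q ≠ 0 := right_ne_zero_of_mul h0
  have hq1 : q.natDegree ≠ 0 := fun h => hq0 (derivative_of_natDegree_zero h)
  have h1 := natDegree_derivative_lt hq1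
  have h2 : (p * derivative q).natDegree < n + n := lt_of_le_of_lt natDegree_mul_le (by omega)
  exact (natDegree_lt_iff_degree_lt h0).1 h2

theorem eq_zero_of_mul_deg {l N W : K[X]} {m : ℕ} (hW : W.degree < (m : WithBot ℕ))
    (hN : N.coeff m ≠ 0) (h : W = l * N) : l = 0 := by
  by_contra hl
  have hN0 : N ≠ 0 := fun h0 => hN (by rw [h0, coeff_zero])
  have h1 : m ≤ N.natDegree := le_natDegree_of_ne_zero hN
  have hW0 : W ≠ 0 := by rw [h]; exact mul_ne_zero hl hN0
  have h2 : W.natDegree < m := (natDegree_lt_iff_degree_lt hW0).2 hW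
  rw [h, natDegree_mul hl hN0] at h2
  omega

theorem wronskian_coprime [IsAlgClosed K] (τ : K) (hτ : 64 * τ ^ 3 + 27 ≠ 0) (x y z : K[X])
    (hc : ∀ r : K, ¬ (x.eval r = 0 ∧ y.eval r = 0 ∧ z.eval r = 0))
    (h : y ^ 2 * z + y * z ^ 2 - x ^ 3 - C τ * x * z ^ 2 = 0) :
    y * derivative z - z * derivative y = 0 ∧ z * derivative x - x * derivative z = 0 ∧
      x * derivative y - y * derivative x = 0 := by
  classical
  set N1 : K[X] := -3 * x ^ 2 - C τ * z ^ 2 with hN1
  set N2 : K[X] := 2 * y * z + z ^ 2 with hN2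
  set N3 : K[X] := y ^ 2 + 2 * y * z - 2 * C τ * x * z with hN3
  set W1 : K[X] := y * derivative z - z * derivative y with hW1
  set W2 : K[X] := z * derivative x - x * derivative z with hW2
  set W3 : K[X] := x * derivative y - y * derivative x with hW3
  have hE : x * N1 + y * N2 + z * N3 = 0 := by
    rw [hN1, hN2, hN3]; linear_combination 3 * h
  have hD : derivative x * N1 + derivative y * N2 + derivative z * N3 = 0 := by
    have := congrArg derivative h
    simp only [derivative_sub, derivative_add, derivative_mul, derivative_pow, derivative_C,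
      derivative_zero, map_natCast] at this
    rw [hN1, hN2, hN3]
    push_cast at this
    linear_combination this
  have c12 : N1 * W2 = N2 * W1 := by
    rw [hW1, hW2]; linear_combination z * hD - derivative z * hE
  have c13 : N1 * W3 = N3 * W1 := by
    rw [hW1, hW3]; linear_combination derivative y * hE - y * hD
  have c23 : N2 * W3 = N3 * W2 := by
    rw [hW2, hW3]; linear_combination x * hD - derivative x * hE
  -- the gradient has no common root
  have hcop : IsCoprime (gcd N1 N2) N3 := by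
    refine (isCoprime_iff_aeval_ne_zero_of_isAlgClosed K K _ _).2 fun r => ?_
    by_contra hr
    push Not at hr
    obtain ⟨hr1, hr2⟩ := hr
    have e1 : N1.eval r = 0 := eval_eq_zero_of_dvd_of_eval_eq_zero (gcd_dvd_left N1 N2) hr1
    have e2 : N2.eval r = 0 := eval_eq_zero_of_dvd_of_eval_eq_zero (gcd_dvd_right N1 N2) hr1
    have e3 : N3.eval r = 0 := hr2
    have e0 := congrArg (eval r) h
    rw [hN1] at e1
    rw [hN2] at e2
    rw [hN3] at e3
    simp only [eval_sub, eval_add, eval_mul, eval_pow, eval_C, eval_neg, eval_ofNat,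
      eval_zero] at e0 e1 e2 e3
    exact hc r (smooth_pt τ _ _ _ hτ e0 e1 e2 e3)
  obtain ⟨a, b, hab⟩ := hcop
  obtain ⟨c, d, hcd⟩ := exists_gcd_eq_mul_add_mul N1 N2
  rw [hcd] at hab
  set l : K[X] := a * c * W1 + a * d * W2 + b * W3 with hl
  have w1 : W1 = l * N1 := by
    rw [hl]; linear_combination (-W1) * hab - a * d * c12 - b * c13
  have w2 : W2 = l * N2 := by
    rw [hl]; linear_combination (-W2) * hab + a * c * c12 - b * c23
  have w3 : W3 = l * N3 := by
    rw [hl]; linear_combination (-W3) * hab + a * c * c13 + a * d * c23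
  -- degrees
  set n := max (max x.natDegree y.natDegree) z.natDegree with hn
  have hx : x.natDegree ≤ n := by omega
  have hy : y.natDegree ≤ n := by omega
  have hz : z.natDegree ≤ n := by omega
  have hlead : ¬ (x.coeff n = 0 ∧ y.coeff n = 0 ∧ z.coeff n = 0) := by
    rintro ⟨a1, a2, a3⟩
    have key : ∀ p : K[X], p.natDegree = n → p.coeff n = 0 → n = 0 := by
      intro p hp h0
      rw [← hp] at h0
      have : p = 0 := leadingCoeff_eq_zero.1 h0
      rw [← hp, this, natDegree_zero]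
    have hn0 : n = 0 := by
      have : x.natDegree = n ∨ y.natDegree = n ∨ z.natDegree = n := by omega
      rcases this with h' | h' | h'
      · exact key x h' a1
      · exact key y h' a2
      · exact key z h' a3
    rw [hn0] at a1 a2 a3
    exact hc 0 ⟨by rwa [← coeff_zero_eq_eval_zero], by rwa [← coeff_zero_eq_eval_zero],
      by rwa [← coeff_zero_eq_eval_zero]⟩
  have d1 : W1.degree < (n + n : ℕ) :=
    (degree_sub_le _ _).trans_lt (max_lt (degree_mul_deriv_lt hy hz) (degree_mul_deriv_lt hz hy))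
  have d2 : W2.degree < (n + n : ℕ) :=
    (degree_sub_le _ _).trans_lt (max_lt (degree_mul_deriv_lt hz hx) (degree_mul_deriv_lt hx hz))
  have d3 : W3.degree < (n + n : ℕ) :=
    (degree_sub_le _ _).trans_lt (max_lt (degree_mul_deriv_lt hx hy) (degree_mul_deriv_lt hy hx))
  have k0 : y.coeff n ^ 2 * z.coeff n + y.coeff n * z.coeff n ^ 2 - x.coeff n ^ 3
      - τ * x.coeff n * z.coeff n ^ 2 = 0 := by
    have e : y * y * z + y * z * z - x * x * x - C τ * (x * z * z) = 0 := by
      linear_combination h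
    have := congrArg (coeff · (n + n + n)) e
    simp only [coeff_sub, coeff_add, coeff_C_mul, coeff_mul3 hy hy hz, coeff_mul3 hy hz hz,
      coeff_mul3 hx hx hx, coeff_mul3 hx hz hz, coeff_zero] at this
    linear_combination this
  have k1 : N1.coeff (n + n) = -3 * x.coeff n ^ 2 - τ * z.coeff n ^ 2 := by
    have e : N1 = C (-3) * (x * x) - C τ * (z * z) := by
      rw [hN1, map_neg, show (C 3 : K[X]) = 3 from rfl]; ring
    rw [e]
    simp only [coeff_sub, coeff_C_mul, coeff_mul2 hx hx, coeff_mul2 hz hz]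
    ring
  have k2 : N2.coeff (n + n) = 2 * y.coeff n * z.coeff n + z.coeff n ^ 2 := by
    have e : N2 = C 2 * (y * z) + z * z := by
      rw [hN2, show (C 2 : K[X]) = 2 from rfl]; ring
    rw [e]
    simp only [coeff_add, coeff_C_mul, coeff_mul2 hy hz, coeff_mul2 hz hz]
    ring
  have k3 : N3.coeff (n + n) =
      y.coeff n ^ 2 + 2 * y.coeff n * z.coeff n - 2 * τ * x.coeff n * z.coeff n := by
    have e : N3 = y * y + C 2 * (y * z) - C (2 * τ) * (x * z) := by
      rw [hN3, map_mul, show (C 2 : K[X]) = 2 from rfl]; ring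
    rw [e]
    simp only [coeff_add, coeff_sub, coeff_C_mul, coeff_mul2 hy hz, coeff_mul2 hy hy,
      coeff_mul2 hx hz]
    ring
  have hl0 : l = 0 := by
    by_contra hl0
    have z1 : N1.coeff (n + n) = 0 := by
      by_contra h'; exact hl0 (eq_zero_of_mul_deg d1 h' w1)
    have z2 : N2.coeff (n + n) = 0 := by
      by_contra h'; exact hl0 (eq_zero_of_mul_deg d2 h' w2)
    have z3 : N3.coeff (n + n) = 0 := by
      by_contra h'; exact hl0 (eq_zero_of_mul_deg d3 h' w3)
    exact hlead (smooth_pt τ _ _ _ hτ k0 (k1 ▸ z1) (k2 ▸ z2) (k3 ▸ z3))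
  rw [w1, w2, w3, hl0]
  simp

theorem wronskian_zero [IsAlgClosed K] (τ : K) (hτ : 64 * τ ^ 3 + 27 ≠ 0) (x y z : K[X])
    (h : y ^ 2 * z + y * z ^ 2 - x ^ 3 - C τ * x * z ^ 2 = 0) :
    y * derivative z - z * derivative y = 0 ∧ z * derivative x - x * derivative z = 0 ∧
      x * derivative y - y * derivative x = 0 := by
  classical
  set d := gcd x (gcd y z) with hd
  by_cases hd0 : d = 0
  · rw [hd, gcd_eq_zero_iff, gcd_eq_zero_iff] at hd0
    obtain ⟨rfl, rfl, rfl⟩ := hd0
    simp
  obtain ⟨x0, hx⟩ : d ∣ x := gcd_dvd_left _ _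
  obtain ⟨y0, hy⟩ : d ∣ y := (gcd_dvd_right _ _).trans (gcd_dvd_left _ _)
  obtain ⟨z0, hz⟩ : d ∣ z := (gcd_dvd_right _ _).trans (gcd_dvd_right _ _)
  have hc : ∀ r : K, ¬ (x0.eval r = 0 ∧ y0.eval r = 0 ∧ z0.eval r = 0) := by
    rintro r ⟨a1, a2, a3⟩
    have b1 : d * (X - C r) ∣ x := hx ▸ mul_dvd_mul_left d (dvd_iff_isRoot.2 a1)
    have b2 : d * (X - C r) ∣ y := hy ▸ mul_dvd_mul_left d (dvd_iff_isRoot.2 a2)
    have b3 : d * (X - C r) ∣ z := hz ▸ mul_dvd_mul_left d (dvd_iff_isRoot.2 a3)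
    have b4 : d * (X - C r) ∣ d * 1 := by
      rw [mul_one]
      exact dvd_gcd b1 (dvd_gcd b2 b3)
    exact not_isUnit_X_sub_C r (isUnit_of_dvd_one ((mul_dvd_mul_iff_left hd0).1 b4))
  have h0 : y0 ^ 2 * z0 + y0 * z0 ^ 2 - x0 ^ 3 - C τ * x0 * z0 ^ 2 = 0 := by
    apply mul_left_cancel₀ (pow_ne_zero 3 hd0)
    clear_value d
    subst hx hy hz
    linear_combination h
  obtain ⟨e1, e2, e3⟩ := wronskian_coprime τ hτ x0 y0 z0 hc h0
  clear_value d
  subst hx hy hz
  simp only [derivative_mul]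
  refine ⟨?_, ?_, ?_⟩
  · linear_combination d ^ 2 * e1
  · linear_combination d ^ 2 * e2
  · linear_combination d ^ 2 * e3

end Pool.Agent.P.MP_87683a_ag
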