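import Mathlib

/-! The sextic `E`, the pencil of cubics and the parameterization. -/

namespace Pool.Agent.P.MP_87683a_ag

open MvPolynomial

variable (K : Type*) [Field K]

/-- First cubic of the pencil. -/
noncomputable def P1 : MvPolynomial (Fin 3) K := X 1 ^ 2 * X 2 + X 1 * X 2 ^ 2 - X 0 ^ 3

/-- Second cubic of the pencil. -/
noncomputable def P2 : MvPolynomial (Fin 3) K := X 0 * X 2 ^ 2

/-- The sextic. -/
noncomputable def EE : MvPolynomial (Fin 3) K := P1 K ^ 2 - P1 K * X 2 ^ 3 + X 1 * X 2 ^ 5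

/-- Its parameterization. -/
noncomputable def uu : Fin 3 → MvPolynomial (Fin 2) K :=
  ![X 0 ^ 2 * X 1 * (X 1 ^ 3 + 2 * X 0 ^ 3), -((X 1 ^ 3 + X 0 ^ 3) * (X 1 ^ 3 + 2 * X 0 ^ 3)),
    X 0 ^ 6]

/-- The second coordinate of the affine parameterization. -/
noncomputable def ys : Polynomial (Polynomial K) :=
  -(Polynomial.X ^ 6 + 3 * Polynomial.X ^ 3 + 2)

/-- The parameterization of the cone over the sextic. -/
noncomputable def th : MvPolynomial (Fin 3) K →ₐ[K] Polynomial (Polynomial K) :=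
  aeval ![Polynomial.C Polynomial.X * (Polynomial.X ^ 4 + 2 * Polynomial.X),
    Polynomial.C Polynomial.X * ys K, Polynomial.C Polynomial.X]

/-- Inclusion of polynomials in the last two variables. -/
noncomputable def io : MvPolynomial (Fin 2) K →ₐ[K] MvPolynomial (Fin 3) K := aeval ![X 1, X 2]

/-- The substitution `r ↦ r(zY, z)`. -/
noncomputable def ps : MvPolynomial (Fin 2) K →ₐ[K] Polynomial (Polynomial K) :=
  aeval ![Polynomial.C Polynomial.X * Polynomial.X, Polynomial.C Polynomial.X]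

theorem th_P1 : th K (P1 K) = Polynomial.C Polynomial.X ^ 3 * (Polynomial.X ^ 3 + 2) := by
  simp [th, P1, ys]
  ring

theorem th_P2 : th K (P2 K) =
    Polynomial.C Polynomial.X ^ 3 * (Polynomial.X ^ 3 + 2) * Polynomial.X := by
  simp [th, P2]
  ring

theorem th_X0 : th K (X 0) = Polynomial.C Polynomial.X * (Polynomial.X ^ 4 + 2 * Polynomial.X) := by
  simp [th]

theorem th_X1 : th K (X 1) = Polynomial.C Polynomial.X * ys K := by simp [th]

theorem th_X2 : th K (X 2) = Polynomial.C Polynomial.X := by simp [th]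

theorem th_EE : th K (EE K) = 0 := by
  simp only [EE, map_add, map_sub, map_mul, map_pow, th_P1, th_X1, th_X2, ys]
  ring

theorem th_io (r : MvPolynomial (Fin 2) K) : th K (io K r) = (ps K r).comp (ys K) := by
  induction r using MvPolynomial.induction_on with
  | C a => simp [th, io, ps, Polynomial.algebraMap_apply]
  | add p q hp hq => simp only [map_add, hp, hq, Polynomial.add_comp]
  | mul_X p i hp =>
    simp only [map_mul, hp, Polynomial.mul_comp]
    congr 1
    fin_cases i <;> simp [th, io, ps]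

theorem decomp (H : MvPolynomial (Fin 3) K) :
    ∃ (Q : MvPolynomial (Fin 3) K) (r0 r1 r2 r3 r4 r5 : MvPolynomial (Fin 2) K),
      H = Q * EE K + (io K r0 + io K r1 * (X 0 * P1 K) + io K r2 * X 0 ^ 2 + io K r3 * P1 K
        + io K r4 * X 0 + io K r5 * (X 0 ^ 2 * P1 K)) := by
  have i0 : io K (X 0) = X 1 := by simp [io]
  have i1 : io K (X 1) = X 2 := by simp [io]
  induction H using MvPolynomial.induction_on with
  | C a => exact ⟨0, C a, 0, 0, 0, 0, 0, by simp [io]⟩
  | add p q hp hq =>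
    obtain ⟨Q, r0, r1, r2, r3, r4, r5, rfl⟩ := hp
    obtain ⟨Q', s0, s1, s2, s3, s4, s5, rfl⟩ := hq
    refine ⟨Q + Q', r0 + s0, r1 + s1, r2 + s2, r3 + s3, r4 + s4, r5 + s5, ?_⟩
    simp only [map_add]
    ring
  | mul_X p i hp =>
    obtain ⟨Q, r0, r1, r2, r3, r4, r5, rfl⟩ := hp
    fin_cases i
    · refine ⟨Q * X 0 - io K r5, r2 * (X 0 ^ 2 * X 1 + X 0 * X 1 ^ 2) + r5 * X 0 * X 1 ^ 5, r3, r4,
        -r2 + r5 * (X 0 ^ 2 * X 1 + X 0 * X 1 ^ 2 - X 1 ^ 3), r0, r1, ?_⟩
      simp only [map_add, map_mul, map_sub, map_pow, map_neg, i0, i1, EE, P1, Fin.zero_eta]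
      ring
    · refine ⟨Q * X 1, r0 * X 0, r1 * X 0, r2 * X 0, r3 * X 0, r4 * X 0, r5 * X 0, ?_⟩
      simp only [map_mul, i0, Fin.mk_one]
      ring
    · refine ⟨Q * X 2, r0 * X 1, r1 * X 1, r2 * X 1, r3 * X 1, r4 * X 1, r5 * X 1, ?_⟩
      simp only [map_mul, i1, Fin.reduceFinMk]
      ring

theorem sum_mod {R : Type*} [CommRing R] {n : ℕ} (f : Fin n → Polynomial R)
    (hf : ∀ k, f k ≠ 0 → (f k).natDegree % n = k) (h : ∑ k, f k = 0) (k : Fin n) : f k = 0 := by
  classical
  by_contra hk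
  obtain ⟨m, hm, hmax⟩ := Finset.exists_max_image (Finset.univ.filter fun k => f k ≠ 0)
    (fun k => (f k).natDegree) ⟨k, by simpa using hk⟩
  have hm0 : f m ≠ 0 := by simpa using hm
  have h1 := congrArg (Polynomial.coeff · (f m).natDegree) h
  simp only [Polynomial.finsetSum_coeff, Polynomial.coeff_zero] at h1
  rw [Finset.sum_eq_single m] at h1
  · exact hm0 (Polynomial.leadingCoeff_eq_zero.1 h1)
  · intro j _ hj
    by_cases hj0 : f j = 0
    · rw [hj0, Polynomial.coeff_zero]
    · refine Polynomial.coeff_eq_zero_of_natDegree_lt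
        (lt_of_le_of_ne (hmax j (by simpa using hj0)) fun he => hj ?_)
      have a1 := hf j hj0
      have a2 := hf m hm0
      rw [he, a2] at a1
      exact (Fin.ext a1).symm
  · simp

theorem ps_inj [Infinite K] (r : MvPolynomial (Fin 2) K) (h : ps K r = 0) : r = 0 := by
  have key : ∀ (a b : K) (r : MvPolynomial (Fin 2) K), b ≠ 0 →
      eval ![a, b] r = Polynomial.evalEval b (a / b) (ps K r) := by
    intro a b r hb
    induction r using MvPolynomial.induction_on with
    | C c => simp [ps, Polynomial.algebraMap_apply]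
    | add p q hp hq => simp only [map_add, hp, hq, Polynomial.evalEval_add]
    | mul_X p i hp =>
      simp only [map_mul, hp, Polynomial.evalEval_mul]
      congr 1
      fin_cases i
      · simp [ps, Polynomial.evalEval]
        field_simp
      · simp [ps, Polynomial.evalEval]
  have h1 : X 1 * r = 0 := by
    refine MvPolynomial.funext fun x => ?_
    have hx : x = ![x 0, x 1] := by ext i; fin_cases i <;> rfl
    by_cases hb : x 1 = 0
    · simp [hb]
    · rw [map_mul, hx, key _ _ r hb, h]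
      simp
  exact (mul_eq_zero.1 h1).resolve_left (X_ne_zero 1)

theorem natDegree_ys : (ys K).natDegree = 6 := by
  unfold ys
  rw [Polynomial.natDegree_neg]
  compute_degree!

theorem natDegree_term (p m : Polynomial (Polynomial K)) (d : ℕ) (hm : m.natDegree = d)
    (h : p.comp (ys K) * m ≠ 0) : (p.comp (ys K) * m).natDegree % 6 = d % 6 := by
  rw [Polynomial.natDegree_mul (left_ne_zero_of_mul h) (right_ne_zero_of_mul h),
    Polynomial.natDegree_comp, natDegree_ys, hm]
  omega

theorem comp_ys_eq_zero (p : Polynomial (Polynomial K)) (h : p.comp (ys K) = 0) : p = 0 := by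
  rcases (Polynomial.comp_eq_zero_iff.1 h) with h1 | ⟨-, h1⟩
  · exact h1
  · have := natDegree_ys K
    rw [h1, Polynomial.natDegree_C] at this
    omega

theorem th_ker [Infinite K] (H : MvPolynomial (Fin 3) K) (h : th K H = 0) : EE K ∣ H := by
  obtain ⟨Q, r0, r1, r2, r3, r4, r5, rfl⟩ := decomp K H
  have hz : (Polynomial.C Polynomial.X : Polynomial (Polynomial K)) ≠ 0 :=
    Polynomial.C_ne_zero.2 Polynomial.X_ne_zero
  have ha : (Polynomial.X ^ 4 + 2 * Polynomial.X : Polynomial (Polynomial K)).natDegree = 4 := by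
    compute_degree!
  have hb : (Polynomial.X ^ 3 + 2 : Polynomial (Polynomial K)).natDegree = 3 := by
    compute_degree!
  have ha0 : (Polynomial.X ^ 4 + 2 * Polynomial.X : Polynomial (Polynomial K)) ≠ 0 := by
    intro h0; rw [h0] at ha; simp at ha
  have hb0 : (Polynomial.X ^ 3 + 2 : Polynomial (Polynomial K)) ≠ 0 := by
    intro h0; rw [h0] at hb; simp at hb
  have hX : th K (X 0) ≠ 0 := by rw [th_X0]; exact mul_ne_zero hz ha0
  have hP : th K (P1 K) ≠ 0 := by rw [th_P1]; exact mul_ne_zero (pow_ne_zero _ hz) hb0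
  have dX : (th K (X 0)).natDegree = 4 := by
    rw [th_X0, Polynomial.natDegree_mul hz ha0, ha, Polynomial.natDegree_C]
  have dP : (th K (P1 K)).natDegree = 3 := by
    rw [th_P1, Polynomial.natDegree_mul (pow_ne_zero _ hz) hb0, hb, Polynomial.natDegree_pow,
      Polynomial.natDegree_C]
  simp only [map_add, map_mul, map_pow, th_EE, th_io, mul_zero, zero_add] at h
  have key := sum_mod (n := 6) ![(ps K r0).comp (ys K) * 1,
    (ps K r1).comp (ys K) * (th K (X 0) * th K (P1 K)),
    (ps K r2).comp (ys K) * th K (X 0) ^ 2, (ps K r3).comp (ys K) * th K (P1 K),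
    (ps K r4).comp (ys K) * th K (X 0), (ps K r5).comp (ys K) * (th K (X 0) ^ 2 * th K (P1 K))]
    (by
      intro k hk
      fin_cases k
      · exact natDegree_term K _ _ 0 Polynomial.natDegree_one hk
      · exact natDegree_term K _ _ 7 (by rw [Polynomial.natDegree_mul hX hP, dX, dP]) hk
      · exact natDegree_term K _ _ 8 (by rw [Polynomial.natDegree_pow, dX]) hk
      · exact natDegree_term K _ _ 3 dP hk
      · exact natDegree_term K _ _ 4 dX hk
      · exact natDegree_term K _ _ 11 (by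
          rw [Polynomial.natDegree_mul (pow_ne_zero _ hX) hP, Polynomial.natDegree_pow, dX, dP]) hk)
    (by rw [Fin.sum_univ_six]; simpa using h)
  have fin : ∀ (r : MvPolynomial (Fin 2) K) (m : Polynomial (Polynomial K)), m ≠ 0 →
      (ps K r).comp (ys K) * m = 0 → r = 0 := fun r m hm h0 =>
    ps_inj K r (comp_ys_eq_zero K _ ((mul_eq_zero.1 h0).resolve_right hm))
  rw [fin r0 _ one_ne_zero (key 0), fin r1 _ (mul_ne_zero hX hP) (key 1),
    fin r2 _ (pow_ne_zero _ hX) (key 2), fin r3 _ hP (key 3), fin r4 _ hX (key 4),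
    fin r5 _ (mul_ne_zero (pow_ne_zero _ hX) hP) (key 5)]
  simp

theorem th_of_dvd (H : MvPolynomial (Fin 3) K) (h : EE K ∣ H) : th K H = 0 := by
  obtain ⟨Q, rfl⟩ := h
  rw [map_mul, th_EE, zero_mul]

theorem eval_EE : eval ![0, -1, 1] (EE K) = -1 := by simp [EE, P1]

theorem EE_ne_zero : EE K ≠ 0 := by
  intro h
  have := eval_EE K
  rw [h] at this
  simp at this

theorem prime_EE [Infinite K] : Prime (EE K) := by
  refine ⟨EE_ne_zero K, fun h => ?_, fun a b h => ?_⟩
  · have := h.map (th K)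
    rw [th_EE] at this
    exact not_isUnit_zero this
  · have := th_of_dvd K _ h
    rw [map_mul] at this
    exact (mul_eq_zero.1 this).imp (th_ker K a) (th_ker K b)

theorem hom_P1 : (P1 K).IsHomogeneous 3 :=
  (((isHomogeneous_X_pow 1 2).mul (isHomogeneous_X K 2)).add
    ((isHomogeneous_X K 1).mul (isHomogeneous_X_pow 2 2))).sub (isHomogeneous_X_pow 0 3)

theorem hom_P2 : (P2 K).IsHomogeneous 3 :=
  (isHomogeneous_X K 0).mul (isHomogeneous_X_pow 2 2)

theorem hom_EE : (EE K).IsHomogeneous 6 :=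
  (((hom_P1 K).pow 2).sub ((hom_P1 K).mul (isHomogeneous_X_pow 2 3))).add
    ((isHomogeneous_X K 1).mul (isHomogeneous_X_pow 2 5))

theorem hom_uu (i : Fin 3) : (uu K i).IsHomogeneous 6 := by
  have h2 : (X 1 ^ 3 + 2 * X 0 ^ 3 : MvPolynomial (Fin 2) K).IsHomogeneous 3 :=
    (isHomogeneous_X_pow 1 3).add ((isHomogeneous_X_pow 0 3).C_mul 2)
  fin_cases i
  · exact ((isHomogeneous_X_pow 0 2).mul (isHomogeneous_X K 1)).mul h2
  · exact (((isHomogeneous_X_pow 1 3).add (isHomogeneous_X_pow 0 3)).mul h2).neg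
  · exact isHomogeneous_X_pow 0 6

theorem relPrime_P : IsRelPrime (P1 K) (P2 K) := by
  have h0 : ¬ (X 0 : MvPolynomial (Fin 3) K) ∣ P1 K := by
    intro h
    have := map_dvd (aeval ![0, (Polynomial.X : Polynomial K), 1]) h
    simp only [P1, aeval_X, map_sub, map_add, map_mul, map_pow, Matrix.cons_val_zero,
      Matrix.cons_val_one, Matrix.cons_val, zero_dvd_iff] at this
    have := congrArg (Polynomial.coeff · 2) this
    simp [Polynomial.coeff_X] at this
  have h2 : ¬ (X 2 : MvPolynomial (Fin 3) K) ∣ P1 K := by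
    intro h
    have := map_dvd (eval ![(1 : K), 0, 0]) h
    simp [P1] at this
  refine IsRelPrime.mul_right ?_ (IsRelPrime.pow_right ?_)
  · exact ((X_prime.irreducible.isRelPrime_iff_not_dvd).2 h0).symm
  · exact ((X_prime.irreducible.isRelPrime_iff_not_dvd).2 h2).symm

theorem uu_coprime (c : MvPolynomial (Fin 2) K) (h : ∀ i, c ∣ uu K i) : IsUnit c := by
  have h0 : ¬ (X 0 : MvPolynomial (Fin 2) K) ∣ uu K 1 := by
    intro h
    have := map_dvd (eval ![(0 : K), 1]) h
    simp [uu] at this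
  have h1 : IsRelPrime ((X 0 : MvPolynomial (Fin 2) K) ^ 6) (uu K 1) :=
    IsRelPrime.pow_left ((X_prime.irreducible.isRelPrime_iff_not_dvd).2 h0)
  exact h1 (h 2) (h 1)

theorem uu_EE : aeval (uu K) (EE K) = 0 := by
  simp [uu, EE, P1]
  ring

theorem uu_P (j : Fin 2) : aeval (uu K) (![P1 K, P2 K] j) =
    X 0 ^ 14 * (X 1 ^ 3 + 2 * X 0 ^ 3) * X j := by
  fin_cases j
  · simp [uu, P1]
    ring
  · simp [uu, P2]
    ring

theorem hh_ne_zero : (X 0 ^ 14 * (X 1 ^ 3 + 2 * X 0 ^ 3) : MvPolynomial (Fin 2) K) ≠ 0 := by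
  refine mul_ne_zero (pow_ne_zero _ (X_ne_zero 0)) fun h => ?_
  have := congrArg (eval ![(0 : K), 1]) h
  simp at this

theorem th_uuP (i : Fin 3) : Polynomial.C Polynomial.X * th K (aeval ![P1 K, P2 K] (uu K i)) =
    (Polynomial.C Polynomial.X ^ 3 * (Polynomial.X ^ 3 + 2)) ^ 6 * th K (X i) := by
  fin_cases i
  · simp [uu, th_P1, th_P2, th_X0, map_ofNat]
    ring
  · simp [uu, th_P1, th_P2, th_X1, ys, map_ofNat]
    ring
  · simp [uu, th_P1, th_X2]
    ring

theorem cross_dvd [Infinite K] (i j : Fin 3) :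
    EE K ∣ X i * aeval ![P1 K, P2 K] (uu K j) - X j * aeval ![P1 K, P2 K] (uu K i) := by
  refine th_ker K _ ?_
  have hz : (Polynomial.C Polynomial.X : Polynomial (Polynomial K)) ≠ 0 :=
    Polynomial.C_ne_zero.2 Polynomial.X_ne_zero
  apply mul_left_cancel₀ hz
  rw [map_sub, map_mul, map_mul]
  linear_combination th K (X i) * th_uuP K j - th K (X j) * th_uuP K i

theorem not_dvd_uuP : ¬ EE K ∣ aeval ![P1 K, P2 K] (uu K 2) := by
  intro h
  have h1 := th_of_dvd K _ h
  have hb : (Polynomial.X ^ 3 + 2 : Polynomial (Polynomial K)).natDegree = 3 := by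
    compute_degree!
  have hb0 : (Polynomial.X ^ 3 + 2 : Polynomial (Polynomial K)) ≠ 0 := by
    intro h0; rw [h0] at hb; simp at hb
  simp [uu, th_P1, hb0] at h1

end Pool.Agent.P.MP_87683a_ag
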