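import Mathlib
import Pool.Agent.P.MP_87683a_ag.Cubic
import Pool.Agent.P.MP_87683a_ag.Kernel

/-! General tools on homogeneous polynomials. -/

namespace Pool.Agent.P.MP_87683a_ag

open MvPolynomial

variable {K : Type*} [Field K]

theorem aeval_smul_hom {σ A : Type*} [CommRing A] [Algebra K A] {φ : MvPolynomial σ K} {m : ℕ}
    (hφ : φ.IsHomogeneous m) (c : A) (g : σ → A) :
    aeval (fun i => c * g i) φ = c ^ m * aeval g φ := by
  classical
  conv_lhs => rw [φ.as_sum]
  conv_rhs => rw [φ.as_sum]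
  rw [map_sum, map_sum, Finset.mul_sum]
  refine Finset.sum_congr rfl fun d hd => ?_
  rw [aeval_monomial, aeval_monomial, hφ.degree_eq_sum_deg_support hd]
  simp only [Finsupp.prod, mul_pow, Finset.prod_mul_distrib, Finset.prod_pow_eq_pow_sum]
  ring

theorem eval_smul_hom {σ : Type*} {φ : MvPolynomial σ K} {m : ℕ}
    (hφ : φ.IsHomogeneous m) (c : K) (g : σ → K) : eval (c • g) φ = c ^ m * eval g φ := by
  have := aeval_smul_hom hφ c g
  rw [aeval_eq_eval, aeval_eq_eval] at this
  exact this

theorem aeval_aeval {σ τ A : Type*} [CommRing A] [Algebra K A] (g : σ → MvPolynomial τ K)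
    (x : τ → A) (φ : MvPolynomial σ K) :
    aeval x (aeval g φ) = aeval (fun i => aeval x (g i)) φ := by
  rw [← AlgHom.comp_apply, comp_aeval]

theorem eval_aeval' {σ τ : Type*} (g : σ → MvPolynomial τ K)
    (x : τ → K) (φ : MvPolynomial σ K) :
    eval x (aeval g φ) = eval (fun i => eval x (g i)) φ := by
  have := aeval_aeval g x φ
  simp only [aeval_eq_eval] at this
  exact this

/-- Nullstellensatz on the punctured cone. -/
theorem nss [IsAlgClosed K] {E H : MvPolynomial (Fin 3) K} (hE : Prime E)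
    (h : ∀ p : Fin 3 → K, p ≠ 0 → eval p E = 0 → eval p H = 0) : E ∣ H := by
  have hI : (Ideal.span {E}).IsPrime := (Ideal.span_singleton_prime hE.ne_zero).2 hE
  have key : ∀ i, E ∣ X i * H := by
    intro i
    rw [← Ideal.mem_span_singleton, ← IsPrime.vanishingIdeal_zeroLocus (K := K) (Ideal.span {E}),
      mem_vanishingIdeal_iff]
    intro p hp
    have h1 : eval p E = 0 := by
      have := mem_zeroLocus_iff.1 hp E (Ideal.mem_span_singleton_self E)
      rwa [aeval_eq_eval] at this
    rw [aeval_eq_eval]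
    by_cases hp0 : p = 0
    · simp [hp0]
    · simp [h p hp0 h1]
  by_contra hH
  have h0 := (hE.dvd_or_dvd (key 0)).resolve_right hH
  have h1 := (hE.dvd_or_dvd (key 1)).resolve_right hH
  have h2 : IsRelPrime (X 0 : MvPolynomial (Fin 3) K) (X 1) := by
    refine (X_prime.irreducible.isRelPrime_iff_not_dvd).2 fun h => ?_
    have := map_dvd (eval ![(0 : K), 1, 0]) h
    simp at this
  exact hE.not_isUnit (h2 h0 h1)

/-- Dehomogenisation is injective on forms. -/
theorem dehom_inj [Infinite K] {g : MvPolynomial (Fin 2) K} {m : ℕ} (hg : g.IsHomogeneous m)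
    (h : aeval ![(Polynomial.X : Polynomial K), 1] g = 0) : g = 0 := by
  have h1 : X 1 * g = 0 := by
    refine MvPolynomial.funext fun x => ?_
    by_cases hb : x 1 = 0
    · simp [hb]
    have hx : x = x 1 • ![x 0 / x 1, 1] := by
      ext i
      fin_cases i
      · simp; field_simp
      · simp
    have h2 := congrArg (Polynomial.aeval (x 0 / x 1)) h
    rw [← AlgHom.comp_apply, comp_aeval, map_zero, aeval_eq_eval] at h2
    have h3 : (fun i => Polynomial.aeval (x 0 / x 1) (![(Polynomial.X : Polynomial K), 1] i)) =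
        ![x 0 / x 1, 1] := by
      ext i; fin_cases i <;> simp
    rw [h3] at h2
    have h4 : eval x g = 0 := by
      rw [hx, eval_smul_hom hg, h2, mul_zero]
    rw [map_mul, h4, mul_zero, map_zero]
  exact (mul_eq_zero.1 h1).resolve_left (X_ne_zero 1)

/-- A form vanishing on the parameterization is divisible by the equation. -/
theorem dvd_of_param {E H : MvPolynomial (Fin 3) K} (hE : Prime E) {m : ℕ}
    (hH : H.IsHomogeneous m) (L : Fin 2 → MvPolynomial (Fin 3) K)
    (v : Fin 3 → MvPolynomial (Fin 2) K) (i0 : Fin 3) (hi0 : ¬ E ∣ aeval L (v i0))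
    (hcross : ∀ i j, E ∣ X i * aeval L (v j) - X j * aeval L (v i)) (h : aeval v H = 0) :
    E ∣ H := by
  set π := Ideal.Quotient.mkₐ K (Ideal.span {E}) with hπ
  have hmem : ∀ a, π a = 0 ↔ E ∣ a := fun a => by
    rw [hπ, Ideal.Quotient.mkₐ_eq_mk, Ideal.Quotient.eq_zero_iff_mem, Ideal.mem_span_singleton]
  have h1 : ∀ j, π (aeval L (v i0)) * π (X j) = π (X i0) * π (aeval L (v j)) := by
    intro j
    have := (hmem _).2 (hcross j i0)
    rw [map_sub, map_mul, map_mul] at this
    linear_combination this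
  have h2 : π (aeval L (v i0)) ^ m * π H = 0 := by
    have e1 : π H = aeval (fun j => π (X j)) H := by
      rw [← comp_aeval, aeval_X_left, AlgHom.comp_id]
    have e2 : aeval (fun j => π (aeval L (v j))) H = 0 := by
      have : aeval (fun j => π (aeval L (v j))) H = π (aeval L (aeval v H)) := by
        rw [aeval_aeval, ← AlgHom.comp_apply, comp_aeval]
      rw [this, h, map_zero, map_zero]
    rw [e1, ← aeval_smul_hom hH]
    simp only [h1]
    rw [aeval_smul_hom hH, e2, mul_zero]
  rw [← map_pow, ← map_mul, hmem] at h2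
  exact (hE.dvd_or_dvd h2).resolve_left fun h3 => hi0 (hE.dvd_of_dvd_pow h3)

theorem hom_eq_of_dvd {σ : Type*} {P S : MvPolynomial σ K} {m n : ℕ} (hP : P.IsHomogeneous m)
    (hP0 : P ≠ 0) (hS : S.IsHomogeneous n) (hmn : n ≤ m) (h : P ∣ S) : ∃ c : K, S = C c * P := by
  obtain ⟨R, rfl⟩ := h
  by_cases hR : R = 0
  · exact ⟨0, by simp [hR]⟩
  have h1 := totalDegree_mul_of_isDomain hP0 hR
  rw [hS.totalDegree (mul_ne_zero hP0 hR), hP.totalDegree hP0] at h1
  have h2 : R.totalDegree = 0 := by omega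
  rw [totalDegree_eq_zero_iff_eq_C] at h2
  exact ⟨R.coeff 0, by rw [mul_comm, ← h2]⟩

theorem eq_zero_of_EE_dvd {S : MvPolynomial (Fin 3) K} (hS : S.IsHomogeneous 3)
    (h : EE K ∣ S) : S = 0 := by
  by_contra h0
  obtain ⟨c, hc⟩ := hom_eq_of_dvd (hom_EE K) (EE_ne_zero K) hS (by norm_num) h
  have h1 : (C c * EE K).IsHomogeneous 6 := (hom_EE K).C_mul c
  rw [← hc] at h1
  have := hS.inj_right h1 h0
  omega

theorem linear_form {L : MvPolynomial (Fin 3) K} (hL : L.IsHomogeneous 1) :
    ∃ c : Fin 3 → K, L = C (c 0) * X 0 + C (c 1) * X 1 + C (c 2) * X 2 := by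
  have h1 : L ∈ homogeneousSubmodule (Fin 3) K 1 := hL
  rw [homogeneousSubmodule_one_eq_span_X, Submodule.mem_span_range_iff_exists_fun] at h1
  obtain ⟨c, hc⟩ := h1
  exact ⟨c, by rw [← hc, Fin.sum_univ_three]; simp only [smul_eq_C_mul]⟩

theorem exists_base (c c' : Fin 3 → K) : ∃ P : Fin 3 → K, P ≠ 0 ∧
    c 0 * P 0 + c 1 * P 1 + c 2 * P 2 = 0 ∧ c' 0 * P 0 + c' 1 * P 1 + c' 2 * P 2 = 0 := by
  have h := LinearMap.ker_ne_bot_of_finrank_lt
    (f := Matrix.mulVecLin (Matrix.of ![c, c'] : Matrix (Fin 2) (Fin 3) K)) (by simp)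
  obtain ⟨P, hP, hP0⟩ := Submodule.exists_mem_ne_zero_of_ne_bot h
  rw [LinearMap.mem_ker, Matrix.mulVecLin_apply] at hP
  refine ⟨P, hP0, ?_, ?_⟩
  · simpa [Matrix.mulVec, dotProduct, Fin.sum_univ_three] using congrFun hP 0
  · simpa [Matrix.mulVec, dotProduct, Fin.sum_univ_three] using congrFun hP 1

theorem chain_rule (g : Fin 3 → Polynomial K) (φ : MvPolynomial (Fin 3) K) :
    Polynomial.derivative (aeval g φ) =
      ∑ k, aeval g (pderiv k φ) * Polynomial.derivative (g k) := by
  induction φ using MvPolynomial.induction_on with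
  | C a => simp
  | add p q hp hq => simp only [map_add, hp, hq, add_mul, Finset.sum_add_distrib]
  | mul_X p i hp =>
    simp only [map_mul, aeval_X, Polynomial.derivative_mul, hp, Derivation.leibniz, smul_eq_mul,
      map_add, add_mul, Finset.sum_add_distrib, Finset.sum_mul]
    rw [add_comm]
    refine congrArg₂ (· + ·) ?_ ?_
    · rw [Finset.sum_eq_single i]
      · simp
      · intro b _ hb
        simp [pderiv_X_of_ne hb.symm]
      · simp
    · exact Finset.sum_congr rfl fun k _ => by ring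

theorem euler_deriv (g : Fin 3 → Polynomial K)
    (hg : ∀ i j, g i * Polynomial.derivative (g j) = g j * Polynomial.derivative (g i))
    {φ : MvPolynomial (Fin 3) K} {n : ℕ} (hφ : φ.IsHomogeneous n) (i : Fin 3) :
    g i * Polynomial.derivative (aeval g φ) = n * Polynomial.derivative (g i) * aeval g φ := by
  have h1 := congrArg (aeval g) hφ.sum_X_mul_pderiv
  simp only [map_sum, map_mul, aeval_X, nsmul_eq_mul, map_natCast] at h1
  rw [chain_rule, Finset.mul_sum, mul_right_comm, ← h1, Finset.sum_mul]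
  refine Finset.sum_congr rfl fun k _ => ?_
  linear_combination aeval g (pderiv k φ) * hg i k

end Pool.Agent.P.MP_87683a_ag
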