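import Mathlib
import Pool.Agent.P.MP_87683a_ag.Tools

/-! The sextic is not a cubic Cremona image of a curve parameterizable by lines. -/

namespace Pool.Agent.P.MP_87683a_ag

open MvPolynomial

variable {K : Type*} [Field K]

theorem wronskian_all (g : Fin 3 → Polynomial K)
    (w1 : g 1 * Polynomial.derivative (g 2) - g 2 * Polynomial.derivative (g 1) = 0)
    (w2 : g 2 * Polynomial.derivative (g 0) - g 0 * Polynomial.derivative (g 2) = 0)
    (w3 : g 0 * Polynomial.derivative (g 1) - g 1 * Polynomial.derivative (g 0) = 0) (i j : Fin 3) :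
    g i * Polynomial.derivative (g j) = g j * Polynomial.derivative (g i) := by
  fin_cases i <;> fin_cases j <;>
    first | rfl | (simp only [Fin.zero_eta, Fin.mk_one, Fin.reduceFinMk]; first
      | linear_combination w1 | linear_combination -w1 | linear_combination w2
      | linear_combination -w2 | linear_combination w3 | linear_combination -w3)

/-- The pencil cannot be completed to a birational map. -/
theorem no_cremona [IsAlgClosed K] (G F : Fin 3 → MvPolynomial (Fin 3) K)
    (hF : ∀ i, (F i).IsHomogeneous 3) (h : MvPolynomial (Fin 3) K) (hh : h ≠ 0)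
    (hFG : ∀ i, aeval G (F i) = h * X i) (L1 L2 : MvPolynomial (Fin 3) K)
    (hL1 : L1.IsHomogeneous 1) (hL2 : L2.IsHomogeneous 1) (c : K) (hc : c ≠ 0)
    (e1 : aeval F L1 = C c * P1 K) (e2 : aeval F L2 = C c * P2 K) : False := by
  have g1 : C c * aeval G (P1 K) = h * L1 := by
    have := congrArg (aeval G) e1
    rw [aeval_aeval, map_mul, aeval_C, algebraMap_eq] at this
    simp only [hFG] at this
    rw [← this, aeval_smul_hom hL1, pow_one, aeval_X_left_apply]
  have g2 : C c * aeval G (P2 K) = h * L2 := by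
    have := congrArg (aeval G) e2
    rw [aeval_aeval, map_mul, aeval_C, algebraMap_eq] at this
    simp only [hFG] at this
    rw [← this, aeval_smul_hom hL2, pow_one, aeval_X_left_apply]
  have n2 : L2 ≠ 0 := by
    rintro rfl
    have := congrArg (eval ![(1 : K), 0, 1]) e2
    simp [P2, hc.symm] at this
  have n3 : 64 * L1 ^ 3 + 27 * L2 ^ 3 ≠ 0 := by
    intro h0
    have h1 := congrArg (aeval F) h0
    simp only [map_add, map_mul, map_pow, e1, e2, map_zero, map_ofNat] at h1
    have a1 := congrArg (eval ![(1 : K), 0, 0]) h1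
    have a2 := congrArg (eval ![(1 : K), 0, 1]) h1
    simp only [P1, P2, map_add, map_sub, map_mul, map_pow, eval_X, eval_C, map_zero, map_ofNat,
      Matrix.cons_val_zero, Matrix.cons_val_one, Matrix.cons_val] at a1 a2
    have a3 : c ^ 3 = 0 := by linear_combination (-11) * a1 + 19 * a2
    exact hc (pow_eq_zero_iff (by norm_num) |>.1 a3)
  obtain ⟨a, ha⟩ : ∃ a : Fin 3 → K, eval a (h * L2 * (64 * L1 ^ 3 + 27 * L2 ^ 3)) ≠ 0 := by
    by_contra hcon
    push Not at hcon
    exact mul_ne_zero (mul_ne_zero hh n2) n3 (MvPolynomial.funext fun x => by rw [hcon x, map_zero])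
  rw [map_mul, map_mul] at ha
  have ha1 : eval a h ≠ 0 := left_ne_zero_of_mul (left_ne_zero_of_mul ha)
  have ha2 : eval a L2 ≠ 0 := right_ne_zero_of_mul (left_ne_zero_of_mul ha)
  have ha3 : 64 * eval a L1 ^ 3 + 27 * eval a L2 ^ 3 ≠ 0 := by
    simpa only [map_add, map_mul, map_pow, map_ofNat] using right_ne_zero_of_mul ha
  obtain ⟨c1, hc1⟩ := linear_form hL1
  obtain ⟨c2, hc2⟩ := linear_form hL2
  obtain ⟨P, hP0, hP1, hP2⟩ := exists_base c1 c2
  set m : Fin 3 → Polynomial K := fun k => Polynomial.C (a k) + Polynomial.C (P k) * Polynomial.X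
    with hm
  have lin : ∀ (cc : Fin 3 → K), cc 0 * P 0 + cc 1 * P 1 + cc 2 * P 2 = 0 →
      aeval m (C (cc 0) * X 0 + C (cc 1) * X 1 + C (cc 2) * X 2 : MvPolynomial (Fin 3) K) =
        Polynomial.C (eval a (C (cc 0) * X 0 + C (cc 1) * X 1 + C (cc 2) * X 2)) := by
    intro cc hcc
    have := congrArg Polynomial.C hcc
    simp only [map_add, map_mul, map_zero] at this
    simp only [map_add, map_mul, aeval_C, aeval_X, eval_C, eval_X, hm, Polynomial.algebraMap_eq]
    linear_combination Polynomial.X * this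
  have m1 : aeval m L1 = Polynomial.C (eval a L1) := by rw [hc1]; exact lin c1 hP1
  have m2 : aeval m L2 = Polynomial.C (eval a L2) := by rw [hc2]; exact lin c2 hP2
  set H : Polynomial K := aeval m h with hH
  have hH0 : H ≠ 0 := by
    intro h0
    have := congrArg (Polynomial.aeval (0 : K)) h0
    rw [hH, ← AlgHom.comp_apply, comp_aeval, map_zero, aeval_eq_eval] at this
    apply ha1
    rw [← this]
    congr 2
    ext k
    simp [hm]
  set g : Fin 3 → Polynomial K := fun i => aeval m (G i) with hg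
  have k1 : Polynomial.C c * aeval g (P1 K) = H * Polynomial.C (eval a L1) := by
    have := congrArg (aeval m) g1
    rwa [map_mul, map_mul, aeval_C, aeval_aeval, m1] at this
  have k2 : Polynomial.C c * aeval g (P2 K) = H * Polynomial.C (eval a L2) := by
    have := congrArg (aeval m) g2
    rwa [map_mul, map_mul, aeval_C, aeval_aeval, m2] at this
  set τ : K := eval a L1 / eval a L2 with hτ
  have hτ1 : τ * eval a L2 = eval a L1 := div_mul_cancel₀ _ ha2
  have hτ0 : 64 * τ ^ 3 + 27 ≠ 0 := by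
    intro h0
    apply ha3
    rw [← hτ1]
    linear_combination eval a L2 ^ 3 * h0
  have heq : g 1 ^ 2 * g 2 + g 1 * g 2 ^ 2 - g 0 ^ 3 - Polynomial.C τ * g 0 * g 2 ^ 2 = 0 := by
    apply mul_left_cancel₀ (Polynomial.C_ne_zero.2 hc)
    simp only [P1, P2, map_add, map_sub, map_mul, map_pow, aeval_X] at k1 k2
    rw [← hτ1, map_mul] at k1
    linear_combination k1 - Polynomial.C τ * k2
  obtain ⟨w1, w2, w3⟩ := wronskian_zero τ hτ0 _ _ _ heq
  have hw := wronskian_all g w1 w2 w3
  have hg0 : g 0 ≠ 0 := by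
    intro h0
    simp only [P2, map_mul, map_pow, aeval_X, h0, zero_mul, mul_zero] at k2
    exact mul_ne_zero hH0 (Polynomial.C_ne_zero.2 ha2) k2.symm
  have hf : ∀ j, aeval g (F j) = H * m j := by
    intro j
    have := congrArg (aeval m) (hFG j)
    rwa [aeval_aeval, map_mul, aeval_X] at this
  have hd : ∀ j, g 0 * (Polynomial.derivative H * m j + H * Polynomial.C (P j)) =
      3 * Polynomial.derivative (g 0) * (H * m j) := by
    intro j
    have := euler_deriv g hw (hF j) 0
    rw [hf, Polynomial.derivative_mul] at this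
    simpa [hm] using this
  have hcross : ∀ j k, a j * P k = a k * P j := by
    intro j k
    have h1 : g 0 * H * (Polynomial.C (a j * P k) - Polynomial.C (a k * P j)) = 0 := by
      have b1 := hd j
      have b2 := hd k
      simp only [hm] at b1 b2
      simp only [map_mul]
      linear_combination (Polynomial.C (a j) + Polynomial.C (P j) * Polynomial.X) * b2
        - (Polynomial.C (a k) + Polynomial.C (P k) * Polynomial.X) * b1
    exact Polynomial.C_injective
      (sub_eq_zero.1 ((mul_eq_zero.1 h1).resolve_left (mul_ne_zero hg0 hH0)))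
  apply hP0
  ext k
  apply mul_left_cancel₀ ha2
  rw [hc2]
  simp only [map_add, map_mul, eval_C, eval_X, Pi.zero_apply, mul_zero]
  linear_combination a k * hP2 + c2 0 * hcross 0 k + c2 1 * hcross 1 k + c2 2 * hcross 2 k

/-- A second parameterization of the sextic differs from the first by a Moebius map. -/
theorem moebius (W : Fin 3 → Polynomial K) (hE : aeval W (EE K) = 0) [Infinite K]
    (hq : aeval W (P2 K) ≠ 0) (hp : aeval W (P1 K) ≠ 0) (A B : MvPolynomial (Fin 3) K)
    (hA : A.IsHomogeneous 3) (hB : B.IsHomogeneous 3) (k : Polynomial K) (hk : k ≠ 0)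
    (eA : aeval W A = k * Polynomial.X) (eB : aeval W B = k) :
    ∃ α β γ δ : K, Polynomial.C γ * Polynomial.X + Polynomial.C δ ≠ 0 ∧
      aeval W (P1 K) * (Polynomial.C γ * Polynomial.X + Polynomial.C δ) =
        aeval W (P2 K) * (Polynomial.C α * Polynomial.X + Polynomial.C β) := by
  set p := aeval W (P1 K) with hp'
  set q := aeval W (P2 K) with hq'
  let ι : Polynomial K →ₐ[K] RatFunc K := IsScalarTower.toAlgHom K (Polynomial K) (RatFunc K)
  have hι : ∀ r, ι r = algebraMap (Polynomial K) (RatFunc K) r := fun _ => rfl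
  have hι0 : ∀ r, r ≠ 0 → ι r ≠ 0 := fun r hr => RatFunc.algebraMap_ne_zero hr
  set f : RatFunc K := ι p / ι q with hf
  have hW2 : W 2 ≠ 0 := by
    intro h0
    apply hq
    simp [hq', P2, h0]
  have hcross : ∀ i, W i * p ^ 6 = W 2 * aeval ![p, q] (uu K i) := by
    intro i
    obtain ⟨R, hR⟩ := cross_dvd K i 2
    have := congrArg (aeval W) hR
    rw [map_mul, hE, zero_mul, map_sub, map_mul, map_mul, aeval_aeval, aeval_aeval, aeval_X,
      aeval_X] at this
    have e : (fun j => aeval W (![P1 K, P2 K] j)) = ![p, q] := by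
      ext1 j; fin_cases j <;> rfl
    rw [e] at this
    have e2 : aeval ![p, q] (uu K 2) = p ^ 6 := by simp [uu]
    rw [e2] at this
    linear_combination this
  let S : IntermediateField K (RatFunc K) := IntermediateField.adjoin K {f}
  have hfS : f ∈ S := IntermediateField.mem_adjoin_simple_self K f
  have hmem : ∀ {σ : Type} (x : σ → RatFunc K) (φ : MvPolynomial σ K), (∀ i, x i ∈ S) →
      aeval x φ ∈ S := fun x φ hx =>
    eval₂_mem (fun i _ => S.algebraMap_mem _) hx
  have hf0 : f ≠ 0 := div_ne_zero (hι0 p hp) (hι0 q hq)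
  have hr : ∀ i, ι (W i) / ι (W 2) ∈ S := by
    intro i
    have h1 := congrArg ι (hcross i)
    rw [map_mul, map_mul, map_pow, ← AlgHom.comp_apply ι (aeval ![p, q]), comp_aeval] at h1
    have e : (fun j => ι (![p, q] j)) = fun j => ι q * ![f, 1] j := by
      ext1 j
      fin_cases j
      · simp only [hf, Fin.zero_eta, Matrix.cons_val_zero]
        rw [mul_div_cancel₀ _ (hι0 q hq)]
      · simp
    rw [e, aeval_smul_hom (hom_uu K i)] at h1
    have h2 : ι (W i) / ι (W 2) = aeval ![f, 1] (uu K i) / f ^ 6 := by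
      rw [div_eq_div_iff (hι0 _ hW2) (pow_ne_zero _ hf0)]
      apply mul_left_cancel₀ (pow_ne_zero 6 (hι0 q hq))
      have e3 : ι q * f = ι p := by rw [hf, mul_div_cancel₀ _ (hι0 q hq)]
      rw [← e3] at h1
      linear_combination h1
    rw [h2]
    refine S.div_mem (hmem _ _ fun j => ?_) (S.pow_mem hfS 6)
    fin_cases j
    · exact hfS
    · exact S.one_mem
  have hX : (RatFunc.X : RatFunc K) ∈ S := by
    have e : (fun j => ι (W j)) = fun j => ι (W 2) * (ι (W j) / ι (W 2)) := by
      ext1 j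
      rw [mul_div_cancel₀ _ (hι0 _ hW2)]
    have h1 := congrArg ι eA
    have h2 := congrArg ι eB
    rw [← AlgHom.comp_apply, comp_aeval, e, aeval_smul_hom hA, map_mul] at h1
    rw [← AlgHom.comp_apply, comp_aeval, e, aeval_smul_hom hB] at h2
    have h3 : aeval (fun j => ι (W j) / ι (W 2)) B ≠ 0 := by
      intro h0
      rw [h0, mul_zero] at h2
      exact hι0 k hk h2.symm
    have h4 : (RatFunc.X : RatFunc K) =
        aeval (fun j => ι (W j) / ι (W 2)) A / aeval (fun j => ι (W j) / ι (W 2)) B := by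
      rw [eq_div_iff h3]
      apply mul_left_cancel₀ (pow_ne_zero 3 (hι0 _ hW2))
      have h5 : ι Polynomial.X = RatFunc.X := rfl
      rw [h5, ← h2] at h1
      linear_combination -h1
    rw [h4]
    exact S.div_mem (hmem _ _ hr) (hmem _ _ hr)
  have htop : S = ⊤ := by
    rw [eq_top_iff, ← RatFunc.adjoin_X, IntermediateField.adjoin_simple_le_iff]
    exact hX
  have hrank := RatFunc.finrank_eq_max_natDegree f
  rw [IntermediateField.finrank_eq_one_iff_eq_top.2 htop] at hrank
  obtain ⟨α, β, h1⟩ := Polynomial.exists_eq_X_add_C_of_natDegree_le_one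
    (show f.num.natDegree ≤ 1 by omega)
  obtain ⟨γ, δ, h2⟩ := Polynomial.exists_eq_X_add_C_of_natDegree_le_one
    (show f.denom.natDegree ≤ 1 by omega)
  refine ⟨α, β, γ, δ, h2 ▸ RatFunc.denom_ne_zero f, ?_⟩
  rw [← h1, ← h2, mul_comm q]
  exact ((RatFunc.num_mul_eq_mul_denom_iff hq).2 hf).symm

theorem not_mem [IsAlgClosed K] (G F : Fin 3 → MvPolynomial (Fin 3) K) (e : ℕ)
    (hG : ∀ i, (G i).IsHomogeneous e) (hF : ∀ i, (F i).IsHomogeneous 3)
    (h : MvPolynomial (Fin 3) K) (hh : h ≠ 0) (hFG : ∀ i, aeval G (F i) = h * X i)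
    (E0 : MvPolynomial (Fin 3) K) (hE0 : Prime E0)
    (L : Fin 2 → MvPolynomial (Fin 3) K) (hL : ∀ j, (L j).IsHomogeneous 1)
    (d : ℕ) (v : Fin 3 → MvPolynomial (Fin 2) K) (hv : ∀ i, (v i).IsHomogeneous d)
    (hv0 : aeval v E0 = 0) (h0 : MvPolynomial (Fin 2) K) (hh0 : h0 ≠ 0)
    (hLv : ∀ j, aeval v (L j) = h0 * X j) (i0 : Fin 3) (hi0 : ¬ E0 ∣ aeval L (v i0))
    (hcross : ∀ i j, E0 ∣ X i * aeval L (v j) - X j * aeval L (v i))
    (hcl1 : E0 ∣ aeval G (EE K))
    (hcl2 : ∀ (H : MvPolynomial (Fin 3) K) (m : ℕ), H.IsHomogeneous m → E0 ∣ aeval G H →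
      EE K ∣ H) : False := by
  let dh : MvPolynomial (Fin 2) K →ₐ[K] Polynomial K := aeval ![Polynomial.X, 1]
  set W : Fin 3 → Polynomial K := fun i => dh (aeval v (G i)) with hW
  have hev : ∀ H : MvPolynomial (Fin 3) K, aeval W H = dh (aeval v (aeval G H)) := by
    intro H
    rw [aeval_aeval G v, ← AlgHom.comp_apply dh, comp_aeval]
  have hE : aeval W (EE K) = 0 := by
    obtain ⟨R, hR⟩ := hcl1
    rw [hev, hR, map_mul, hv0, zero_mul, map_zero]
  have hker : ∀ (H : MvPolynomial (Fin 3) K) (m : ℕ), H.IsHomogeneous m → aeval W H = 0 →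
      EE K ∣ H := by
    intro H m hH h1
    rw [hev] at h1
    have h2 := hH.aeval G hG
    exact hcl2 H m hH (dvd_of_param hE0 h2 L v i0 hi0 hcross (dehom_inj (h2.aeval v hv) h1))
  have hker3 : ∀ H : MvPolynomial (Fin 3) K, H.IsHomogeneous 3 → aeval W H = 0 → H = 0 :=
    fun H hH h1 => eq_zero_of_EE_dvd hH (hker H 3 hH h1)
  have hκ : dh (aeval v h) ≠ 0 := by
    intro h1
    have h2 : F 0 = 0 := hker3 _ (hF 0) (by rw [hev, hFG, map_mul, map_mul, h1, zero_mul])
    have h3 := hFG 0
    rw [h2, map_zero] at h3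
    exact mul_ne_zero hh (X_ne_zero 0) h3.symm
  have hd0 : dh h0 ≠ 0 := by
    intro h1
    have h2 : (aeval v (L 1)).IsHomogeneous (d * 1) := (hL 1).aeval v hv
    have h3 := dehom_inj h2 (by
      rw [hLv, map_mul]
      exact mul_eq_zero_of_left h1 _)
    rw [hLv] at h3
    exact mul_ne_zero hh0 (X_ne_zero 1) h3
  have hA : ∀ j, (aeval F (L j)).IsHomogeneous 3 := fun j => (hL j).aeval F hF
  have hGA : ∀ j, aeval G (aeval F (L j)) = h * L j := by
    intro j
    rw [aeval_aeval]
    simp only [hFG]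
    rw [aeval_smul_hom (hL j), pow_one, aeval_X_left_apply]
  set k : Polynomial K := dh (aeval v h) * dh h0 with hk
  have hk0 : k ≠ 0 := mul_ne_zero hκ hd0
  have eA : aeval W (aeval F (L 0)) = k * Polynomial.X := by
    rw [hev, hGA, map_mul, hLv, map_mul, map_mul, ← mul_assoc]
    simp [dh, hk]
  have eB : aeval W (aeval F (L 1)) = k := by
    rw [hev, hGA, map_mul, hLv, map_mul, map_mul, ← mul_assoc]
    simp [dh, hk]
  have P1ne : P1 K ≠ 0 := by
    intro h1
    have := congrArg (eval ![(1 : K), 0, 0]) h1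
    simp [P1] at this
  have P2ne : P2 K ≠ 0 := mul_ne_zero (X_ne_zero 0) (pow_ne_zero _ (X_ne_zero 2))
  have hp : aeval W (P1 K) ≠ 0 := fun h1 => P1ne (hker3 _ (hom_P1 K) h1)
  have hq : aeval W (P2 K) ≠ 0 := fun h1 => P2ne (hker3 _ (hom_P2 K) h1)
  obtain ⟨α, β, γ, δ, hne, hmob⟩ := moebius W hE hq hp _ _ (hA 0) (hA 1) k hk0 eA eB
  set L1 : MvPolynomial (Fin 3) K := C α * L 0 + C β * L 1 with hL1
  set L2 : MvPolynomial (Fin 3) K := C γ * L 0 + C δ * L 1 with hL2
  have hom1 : L1.IsHomogeneous 1 := ((hL 0).C_mul α).add ((hL 1).C_mul β)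
  have hom2 : L2.IsHomogeneous 1 := ((hL 0).C_mul γ).add ((hL 1).C_mul δ)
  have hA1 : (aeval F L1).IsHomogeneous 3 := hom1.aeval F hF
  have hA2 : (aeval F L2).IsHomogeneous 3 := hom2.aeval F hF
  have ev1 : aeval W (aeval F L1) = k * (Polynomial.C α * Polynomial.X + Polynomial.C β) := by
    simp only [hL1, map_add, map_mul, aeval_C, algebraMap_eq, eA, eB, Polynomial.algebraMap_eq]
    ring
  have ev2 : aeval W (aeval F L2) = k * (Polynomial.C γ * Polynomial.X + Polynomial.C δ) := by
    simp only [hL2, map_add, map_mul, aeval_C, algebraMap_eq, eA, eB, Polynomial.algebraMap_eq]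
    ring
  have hS : (P1 K * aeval F L2 - P2 K * aeval F L1).IsHomogeneous 6 :=
    ((hom_P1 K).mul hA2).sub ((hom_P2 K).mul hA1)
  obtain ⟨c0, hc0⟩ := hom_eq_of_dvd (hom_EE K) (EE_ne_zero K) hS le_rfl (hker _ 6 hS (by
    rw [map_sub, map_mul, map_mul, ev1, ev2]
    linear_combination k * hmob))
  have hc00 : c0 = 0 := by
    have := congrArg (eval ![(0 : K), -1, 1]) hc0
    rw [map_mul, eval_EE] at this
    simpa [P1, P2] using this
  rw [hc00, C_0, zero_mul, sub_eq_zero] at hc0
  obtain ⟨c, hc⟩ := hom_eq_of_dvd (hom_P2 K) P2ne hA2 le_rfl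
    ((relPrime_P K).symm.dvd_of_dvd_mul_left ⟨_, hc0⟩)
  have hc' : aeval F L1 = C c * P1 K := by
    apply mul_left_cancel₀ P2ne
    rw [← hc0, hc]
    ring
  have hcne : c ≠ 0 := by
    rintro rfl
    rw [hc, C_0, zero_mul, map_zero] at ev2
    exact mul_ne_zero hk0 hne ev2.symm
  exact no_cremona G F hF h hh hFG L1 L2 hom1 hom2 c hcne hc' hc

end Pool.Agent.P.MP_87683a_ag
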